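import Pool.Agent.W708.ABG.R1
set_option autoImplicit false
set_option linter.unusedSimpArgs false

/-! Proof of R2. -/

namespace Pool.Agent.W708.ABG
open Module
open Pool.Agent.W429.ABG (sl3 h1 h2 wt altsum chiConv S_R1 S_R2)
attribute [local instance 100] LieRing.ofAssociativeRing

section
variable (k : Type) [Field k]

/-- coordinates on `sl₃` -/
noncomputable def coord : sl3 k →ₗ[k] (Fin 8 → k) where
  toFun X := ![X.val 0 1, X.val 1 2, X.val 0 2, X.val 1 0, X.val 2 1, X.val 2 0, X.val 0 0,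
    X.val 0 0 + X.val 1 1]
  map_add' X Y := by
    ext i; fin_cases i <;> simp
    ring
  map_smul' c X := by
    ext i; fin_cases i <;> simp
    ring

/-- the basis of `sl₃` -/
noncomputable def bas : Fin 8 → sl3 k := ![e1 k, e2 k, e3 k, f1 k, f2 k, f3 k, h1 k, h2 k]

theorem coord_bas (i : Fin 8) : coord k (bas k i) = Pi.single i 1 := by
  fin_cases i <;> (ext j; fin_cases j <;> simp [coord, bas, e1_val, e2_val, e3_val, f1_val, f2_val,
    f3_val, h1_val, h2_val])

theorem sum_bas (X : sl3 k) : ∑ i, coord k X i • bas k i = X := by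
  conv_rhs => rw [expand k X]
  simp [Fin.sum_univ_eight, coord, bas]

/-- the basis as a `Basis` -/
noncomputable def B : Basis (Fin 8) k (sl3 k) :=
  Basis.ofEquivFun
    { toLinearMap := coord k
      invFun := fun c => ∑ i, c i • bas k i
      left_inv := fun X => sum_bas k X
      right_inv := fun c => by
        change coord k (∑ i, c i • bas k i) = c
        rw [map_sum]
        simp only [map_smul, coord_bas]
        ext j
        simp [Finset.sum_apply, Pi.single_apply] }

theorem B_apply (i : Fin 8) : B k i = bas k i := by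
  rw [B, Basis.coe_ofEquivFun]
  change ∑ j, (Pi.single i (1 : k) : Fin 8 → k) j • bas k j = bas k i
  simp [Pi.single_apply, ite_smul]

/-- weights of the basis -/
def wts : Fin 8 → ℤ × ℤ := ![(2, -1), (-1, 2), (1, 1), (-2, 1), (1, -2), (-1, -1), 0, 0]

theorem h1_bas (i : Fin 8) : ⁅h1 k, bas k i⁆ = (((wts i).1 : ℤ) : k) • bas k i := by
  fin_cases i <;> simp [bas, wts, h1e1, h1e2, h1e3, h1f1, h1f2, h1f3, h1h2]
theorem h2_bas (i : Fin 8) : ⁅h2 k, bas k i⁆ = (((wts i).2 : ℤ) : k) • bas k i := by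
  have h21 : ⁅h2 k, h1 k⁆ = 0 := by rw [← lie_skew, h1h2, neg_zero]
  fin_cases i <;> simp [bas, wts, h2e1, h2e2, h2e3, h2f1, h2f2, h2f3, h21]

variable (N : Type) [AddCommGroup N] [Module k N]
    [LieRingModule (sl3 k) N] [LieModule k (sl3 k) N]

theorem mem_wt_hom (μ : ℤ × ℤ) (φ : sl3 k →ₗ[k] N) :
    φ ∈ wt k (sl3 k →ₗ[k] N) μ ↔ ∀ i, φ (bas k i) ∈ wt k N (μ + wts i) := by
  rw [mem_wt]
  have key : ∀ (h : sl3 k) (c : k) (w : Fin 8 → k), (∀ i, ⁅h, bas k i⁆ = w i • bas k i) →
      (op k (sl3 k →ₗ[k] N) h φ = c • φ ↔ ∀ i, ⁅h, φ (bas k i)⁆ = (c + w i) • φ (bas k i)) := by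
    intro h c w hw
    constructor
    · intro H i
      have := LinearMap.congr_fun H (bas k i)
      simp only [op, LieModule.toEnd_apply_apply, LieHom.lie_apply, hw, map_smul,
        LinearMap.smul_apply] at this
      rw [add_smul, ← this]; abel
    · intro H
      refine (B k).ext fun i => ?_
      rw [B_apply]
      simp only [op, LieModule.toEnd_apply_apply, LieHom.lie_apply, hw, map_smul,
        LinearMap.smul_apply, H]
      module
  rw [key _ _ _ (h1_bas k), key _ _ _ (h2_bas k), ← forall_and]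
  refine forall_congr' fun i => ?_
  rw [mem_wt]
  simp only [op, LieModule.toEnd_apply_apply, Prod.fst_add, Prod.snd_add, Int.cast_add]

/-- weight spaces of `Hom(sl₃, N)` -/
noncomputable def wtEquiv (μ : ℤ × ℤ) :
    wt k (sl3 k →ₗ[k] N) μ ≃ₗ[k] ((i : Fin 8) → wt k N (μ + wts i)) where
  toFun φ := fun i => ⟨φ.1 (bas k i), (mem_wt_hom k N μ φ.1).1 φ.2 i⟩
  map_add' φ ψ := rfl
  map_smul' c φ := rfl
  invFun n := ⟨(B k).constr k (fun i => (n i : N)), (mem_wt_hom k N μ _).2 (fun i => by
    have := (B k).constr_basis k (fun i => (n i : N)) i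
    rw [B_apply] at this
    rw [this]
    exact (n i).2)⟩
  left_inv φ := by
    apply Subtype.ext
    refine (B k).ext fun i => ?_
    rw [(B k).constr_basis, B_apply]
  right_inv n := by
    funext i
    apply Subtype.ext
    have := (B k).constr_basis k (fun i => (n i : N)) i
    rw [B_apply] at this
    exact this

theorem finrank_hom [FiniteDimensional k N] (μ : ℤ × ℤ) :
    (finrank k (wt k (sl3 k →ₗ[k] N) μ) : ℤ) = chiConv (fun μ => (finrank k (wt k N μ) : ℤ)) μ := by
  rw [(wtEquiv k N μ).finrank_eq, Module.finrank_pi_fintype]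
  have h : ((∑ i, finrank k (wt k N (μ + wts i)) : ℕ) : ℤ) =
      ∑ i, (fun ν => (finrank k (wt k N ν) : ℤ)) (μ + wts i) := by push_cast; rfl
  rw [h]
  generalize (fun ν => (finrank k (wt k N ν) : ℤ)) = m
  rw [Fin.sum_univ_eight]
  simp only [chiConv, wts]
  simp
  ring

end

theorem r2 : S_R2 := by
  intro k _ _ N _ _ _ _ _ _ hhom
  have h := altsum_zero k (sl3 k →ₗ[k] N) (by
    intro φ hφ
    have hlie : ∀ (X Y : sl3 k), φ ⁅X, Y⁆ = ⁅X, φ Y⁆ := by
      intro X Y
      have := LinearMap.congr_fun (hφ X) Y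
      simp only [LieHom.lie_apply, LinearMap.zero_apply] at this
      exact (sub_eq_zero.1 this).symm
    have := hhom { toLinearMap := φ, map_lie' := fun {X Y} => hlie X Y }
    ext1 X
    exact congrArg (fun ψ : sl3 k →ₗ⁅k, sl3 k⁆ N => ψ X) this)
  have h' : (fun μ => (finrank k (wt k (sl3 k →ₗ[k] N) μ) : ℤ)) =
      chiConv (fun μ => (finrank k (wt k N μ) : ℤ)) := by
    funext μ
    exact finrank_hom k N μ
  rw [h'] at h
  exact h

end Pool.Agent.W708.ABG
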