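import Pool.Agent.W708.ABG.Rel
set_option autoImplicit false
set_option linter.unusedSimpArgs false
set_option linter.unusedSectionVars false

/-! Proof of R1. -/

namespace Pool.Agent.W708.ABG
open Module
open Pool.Agent.W429.ABG (sl3 h1 h2 wt altsum chiConv S_R1)
attribute [local instance 100] LieRing.ofAssociativeRing

section
variable (k : Type) [Field k] (N : Type) [AddCommGroup N] [Module k N]
    [LieRingModule (sl3 k) N] [LieModule k (sl3 k) N]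

/-- action of an element as a linear map -/
noncomputable abbrev op (X : sl3 k) : N →ₗ[k] N := LieModule.toEnd k (sl3 k) N X

theorem op_comm (X Y : sl3 k) (x : N) :
    op k N X (op k N Y x) = op k N Y (op k N X x) + op k N ⁅X, Y⁆ x := by
  simp only [op, LieModule.toEnd_apply_apply]
  rw [leibniz_lie, add_comm]

/-- The Casimir operator. -/
noncomputable def Cas : N →ₗ[k] N :=
  (3 : k) • (op k N (f1 k) ∘ₗ op k N (e1 k) + op k N (f2 k) ∘ₗ op k N (e2 k) +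
    op k N (f3 k) ∘ₗ op k N (e3 k)) + op k N (h1 k) ∘ₗ op k N (h1 k) +
    op k N (h1 k) ∘ₗ op k N (h2 k) + op k N (h2 k) ∘ₗ op k N (h2 k) +
    (3 : k) • op k N (h1 k) + (3 : k) • op k N (h2 k)

theorem Cas_apply (x : N) : Cas k N x =
    (3 : k) • (op k N (f1 k) (op k N (e1 k) x) + op k N (f2 k) (op k N (e2 k) x) +
    op k N (f3 k) (op k N (e3 k) x)) + op k N (h1 k) (op k N (h1 k) x) +
    op k N (h1 k) (op k N (h2 k) x) + op k N (h2 k) (op k N (h2 k) x) +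
    (3 : k) • op k N (h1 k) x + (3 : k) • op k N (h2 k) x := by
  simp [Cas]

theorem r_e1f1 (x : N) : op k N (e1 k) (op k N (f1 k) x) = op k N (f1 k) (op k N (e1 k) x) + op k N (h1 k) x := by
  rw [op_comm, e1f1]
theorem r_e1f2 (x : N) : op k N (e1 k) (op k N (f2 k) x) = op k N (f2 k) (op k N (e1 k) x) := by
  rw [op_comm, e1f2]; simp [op]
theorem r_e1f3 (x : N) : op k N (e1 k) (op k N (f3 k) x) = op k N (f3 k) (op k N (e1 k) x) - op k N (f2 k) x := by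
  rw [op_comm, e1f3]; simp [op]; abel
theorem r_e2f1 (x : N) : op k N (e2 k) (op k N (f1 k) x) = op k N (f1 k) (op k N (e2 k) x) := by
  rw [op_comm, e2f1]; simp [op]
theorem r_e2f2 (x : N) : op k N (e2 k) (op k N (f2 k) x) = op k N (f2 k) (op k N (e2 k) x) + op k N (h2 k) x := by
  rw [op_comm, e2f2]
theorem r_e2f3 (x : N) : op k N (e2 k) (op k N (f3 k) x) = op k N (f3 k) (op k N (e2 k) x) + op k N (f1 k) x := by
  rw [op_comm, e2f3]
theorem r_e3f1 (x : N) : op k N (e3 k) (op k N (f1 k) x) = op k N (f1 k) (op k N (e3 k) x) - op k N (e2 k) x := by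
  rw [op_comm, e3f1]; simp [op]; abel
theorem r_e3f2 (x : N) : op k N (e3 k) (op k N (f2 k) x) = op k N (f2 k) (op k N (e3 k) x) + op k N (e1 k) x := by
  rw [op_comm, e3f2]
theorem r_e3f3 (x : N) : op k N (e3 k) (op k N (f3 k) x) = op k N (f3 k) (op k N (e3 k) x) +
    (op k N (h1 k) x + op k N (h2 k) x) := by
  rw [op_comm, e3f3]; simp [op]
theorem r_e1e2 (x : N) : op k N (e1 k) (op k N (e2 k) x) = op k N (e2 k) (op k N (e1 k) x) + op k N (e3 k) x := by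
  rw [op_comm, e1e2]
theorem r_e1e3 (x : N) : op k N (e1 k) (op k N (e3 k) x) = op k N (e3 k) (op k N (e1 k) x) := by
  rw [op_comm, e1e3]; simp [op]
theorem r_e2e3 (x : N) : op k N (e2 k) (op k N (e3 k) x) = op k N (e3 k) (op k N (e2 k) x) := by
  rw [op_comm, e2e3]; simp [op]
theorem r_f1f2 (x : N) : op k N (f1 k) (op k N (f2 k) x) = op k N (f2 k) (op k N (f1 k) x) - op k N (f3 k) x := by
  rw [op_comm, f1f2]; simp [op]; abel
theorem r_f1f3 (x : N) : op k N (f1 k) (op k N (f3 k) x) = op k N (f3 k) (op k N (f1 k) x) := by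
  rw [op_comm, f1f3]; simp [op]
theorem r_f2f3 (x : N) : op k N (f2 k) (op k N (f3 k) x) = op k N (f3 k) (op k N (f2 k) x) := by
  rw [op_comm, f2f3]; simp [op]
theorem r_h1e1 (x : N) : op k N (h1 k) (op k N (e1 k) x) = op k N (e1 k) (op k N (h1 k) x) + (2 : k) • op k N (e1 k) x := by
  rw [op_comm, h1e1]; simp [op]
theorem r_h1e2 (x : N) : op k N (h1 k) (op k N (e2 k) x) = op k N (e2 k) (op k N (h1 k) x) - op k N (e2 k) x := by
  rw [op_comm, h1e2]; simp [op]; abel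
theorem r_h1e3 (x : N) : op k N (h1 k) (op k N (e3 k) x) = op k N (e3 k) (op k N (h1 k) x) + op k N (e3 k) x := by
  rw [op_comm, h1e3]
theorem r_h1f1 (x : N) : op k N (h1 k) (op k N (f1 k) x) = op k N (f1 k) (op k N (h1 k) x) - (2 : k) • op k N (f1 k) x := by
  rw [op_comm, h1f1]; simp [op]; abel
theorem r_h1f2 (x : N) : op k N (h1 k) (op k N (f2 k) x) = op k N (f2 k) (op k N (h1 k) x) + op k N (f2 k) x := by
  rw [op_comm, h1f2]
theorem r_h1f3 (x : N) : op k N (h1 k) (op k N (f3 k) x) = op k N (f3 k) (op k N (h1 k) x) - op k N (f3 k) x := by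
  rw [op_comm, h1f3]; simp [op]; abel
theorem r_h2e1 (x : N) : op k N (h2 k) (op k N (e1 k) x) = op k N (e1 k) (op k N (h2 k) x) - op k N (e1 k) x := by
  rw [op_comm, h2e1]; simp [op]; abel
theorem r_h2e2 (x : N) : op k N (h2 k) (op k N (e2 k) x) = op k N (e2 k) (op k N (h2 k) x) + (2 : k) • op k N (e2 k) x := by
  rw [op_comm, h2e2]; simp [op]
theorem r_h2e3 (x : N) : op k N (h2 k) (op k N (e3 k) x) = op k N (e3 k) (op k N (h2 k) x) + op k N (e3 k) x := by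
  rw [op_comm, h2e3]
theorem r_h2f1 (x : N) : op k N (h2 k) (op k N (f1 k) x) = op k N (f1 k) (op k N (h2 k) x) + op k N (f1 k) x := by
  rw [op_comm, h2f1]
theorem r_h2f2 (x : N) : op k N (h2 k) (op k N (f2 k) x) = op k N (f2 k) (op k N (h2 k) x) - (2 : k) • op k N (f2 k) x := by
  rw [op_comm, h2f2]; simp [op]; abel
theorem r_h2f3 (x : N) : op k N (h2 k) (op k N (f3 k) x) = op k N (f3 k) (op k N (h2 k) x) - op k N (f3 k) x := by
  rw [op_comm, h2f3]; simp [op]; abel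
theorem r_h1h2 (x : N) : op k N (h1 k) (op k N (h2 k) x) = op k N (h2 k) (op k N (h1 k) x) := by
  rw [op_comm, h1h2]; simp [op]

/-- normal ordering: f before e before h -/
theorem Cas_e1 (x : N) : Cas k N (op k N (e1 k) x) = op k N (e1 k) (Cas k N x) := by
  simp only [Cas_apply, map_add, map_smul, map_sub, r_e1f1, r_e1f2, r_e1f3, r_h1e1, r_h1e2, r_h1e3,
    r_h2e1, r_h2e2, r_h2e3, r_e1e2, r_e1e3, r_h1h2]
  module
theorem Cas_e2 (x : N) : Cas k N (op k N (e2 k) x) = op k N (e2 k) (Cas k N x) := by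
  simp only [Cas_apply, map_add, map_smul, map_sub, r_e2f1, r_e2f2, r_e2f3, r_h1e1, r_h1e2, r_h1e3,
    r_h2e1, r_h2e2, r_h2e3, r_e1e2, r_e2e3, r_h1h2]
  module
theorem Cas_f1 (x : N) : Cas k N (op k N (f1 k) x) = op k N (f1 k) (Cas k N x) := by
  simp only [Cas_apply, map_add, map_smul, map_sub, r_e1f1, r_e2f1, r_e3f1, r_h1f1, r_h1f2, r_h1f3,
    r_h2f1, r_h2f2, r_h2f3, r_f1f2, r_f1f3, r_h1h2, r_h1e1, r_h1e2, r_h1e3,
    r_h2e1, r_h2e2, r_h2e3]
  module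
theorem Cas_f2 (x : N) : Cas k N (op k N (f2 k) x) = op k N (f2 k) (Cas k N x) := by
  simp only [Cas_apply, map_add, map_smul, map_sub, r_e1f2, r_e2f2, r_e3f2, r_h1f1, r_h1f2, r_h1f3,
    r_h2f1, r_h2f2, r_h2f3, r_f1f2, r_f2f3, r_h1h2, r_h1e1, r_h1e2, r_h1e3,
    r_h2e1, r_h2e2, r_h2e3]
  module

theorem Cas_e3 (x : N) : Cas k N (op k N (e3 k) x) = op k N (e3 k) (Cas k N x) := by
  have h : ∀ y : N, op k N (e3 k) y = op k N (e1 k) (op k N (e2 k) y) - op k N (e2 k) (op k N (e1 k) y) := by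
    intro y; rw [r_e1e2]; abel
  rw [h, h, map_sub, Cas_e1, Cas_e2, Cas_e2, Cas_e1]
theorem Cas_f3 (x : N) : Cas k N (op k N (f3 k) x) = op k N (f3 k) (Cas k N x) := by
  have h : ∀ y : N, op k N (f3 k) y = op k N (f2 k) (op k N (f1 k) y) - op k N (f1 k) (op k N (f2 k) y) := by
    intro y; rw [r_f1f2]; abel
  rw [h, h, map_sub, Cas_f1, Cas_f2, Cas_f2, Cas_f1]
theorem Cas_h1 (x : N) : Cas k N (op k N (h1 k) x) = op k N (h1 k) (Cas k N x) := by
  have h : ∀ y : N, op k N (h1 k) y = op k N (e1 k) (op k N (f1 k) y) - op k N (f1 k) (op k N (e1 k) y) := by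
    intro y; rw [r_e1f1]; abel
  rw [h, h, map_sub, Cas_e1, Cas_f1, Cas_f1, Cas_e1]
theorem Cas_h2 (x : N) : Cas k N (op k N (h2 k) x) = op k N (h2 k) (Cas k N x) := by
  have h : ∀ y : N, op k N (h2 k) y = op k N (e2 k) (op k N (f2 k) y) - op k N (f2 k) (op k N (e2 k) y) := by
    intro y; rw [r_e2f2]; abel
  rw [h, h, map_sub, Cas_e2, Cas_f2, Cas_f2, Cas_e2]

theorem mem_wt (μ : ℤ × ℤ) (x : N) : x ∈ wt k N μ ↔
    op k N (h1 k) x = ((μ.1 : ℤ) : k) • x ∧ op k N (h2 k) x = ((μ.2 : ℤ) : k) • x := by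
  simp only [wt, Submodule.mem_inf, Module.End.mem_eigenspace_iff]

theorem wt_e1 {μ : ℤ × ℤ} {x : N} (hx : x ∈ wt k N μ) : op k N (e1 k) x ∈ wt k N (μ + (2, -1)) := by
  rw [mem_wt] at hx ⊢
  rw [r_h1e1, r_h2e1, hx.1, hx.2]
  simp only [map_smul, Prod.fst_add, Prod.snd_add, Int.cast_add, Int.cast_neg, Int.cast_ofNat, Int.cast_one]
  constructor <;> module
theorem wt_e2 {μ : ℤ × ℤ} {x : N} (hx : x ∈ wt k N μ) : op k N (e2 k) x ∈ wt k N (μ + (-1, 2)) := by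
  rw [mem_wt] at hx ⊢
  rw [r_h1e2, r_h2e2, hx.1, hx.2]
  simp only [map_smul, Prod.fst_add, Prod.snd_add, Int.cast_add, Int.cast_neg, Int.cast_ofNat, Int.cast_one]
  constructor <;> module
theorem wt_e3 {μ : ℤ × ℤ} {x : N} (hx : x ∈ wt k N μ) : op k N (e3 k) x ∈ wt k N (μ + (1, 1)) := by
  rw [mem_wt] at hx ⊢
  rw [r_h1e3, r_h2e3, hx.1, hx.2]
  simp only [map_smul, Prod.fst_add, Prod.snd_add, Int.cast_add, Int.cast_neg, Int.cast_ofNat, Int.cast_one]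
  constructor <;> module
theorem wt_f1 {μ : ℤ × ℤ} {x : N} (hx : x ∈ wt k N (μ + (2, -1))) : op k N (f1 k) x ∈ wt k N μ := by
  rw [mem_wt] at hx ⊢
  rw [r_h1f1, r_h2f1, hx.1, hx.2]
  simp only [map_smul, Prod.fst_add, Prod.snd_add, Int.cast_add, Int.cast_neg, Int.cast_ofNat, Int.cast_one]
  constructor <;> module
theorem wt_f2 {μ : ℤ × ℤ} {x : N} (hx : x ∈ wt k N (μ + (-1, 2))) : op k N (f2 k) x ∈ wt k N μ := by
  rw [mem_wt] at hx ⊢
  rw [r_h1f2, r_h2f2, hx.1, hx.2]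
  simp only [map_smul, Prod.fst_add, Prod.snd_add, Int.cast_add, Int.cast_neg, Int.cast_ofNat, Int.cast_one]
  constructor <;> module
theorem wt_f3 {μ : ℤ × ℤ} {x : N} (hx : x ∈ wt k N (μ + (1, 1))) : op k N (f3 k) x ∈ wt k N μ := by
  rw [mem_wt] at hx ⊢
  rw [r_h1f3, r_h2f3, hx.1, hx.2]
  simp only [map_smul, Prod.fst_add, Prod.snd_add, Int.cast_add, Int.cast_neg, Int.cast_ofNat, Int.cast_one]
  constructor <;> module
theorem wt_Cas {μ : ℤ × ℤ} {x : N} (hx : x ∈ wt k N μ) : Cas k N x ∈ wt k N μ := by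
  rw [mem_wt] at hx ⊢
  rw [← Cas_h1, ← Cas_h2, hx.1, hx.2]
  simp

/-- value of the Casimir operator on weight spaces -/
def cc (μ : ℤ × ℤ) : ℤ := μ.1 ^ 2 + μ.1 * μ.2 + μ.2 ^ 2 + 3 * μ.1 + 3 * μ.2

theorem Cas_wt {μ : ℤ × ℤ} {x : N} (hx : x ∈ wt k N μ) : Cas k N x =
    (3 : k) • (op k N (f1 k) (op k N (e1 k) x) + op k N (f2 k) (op k N (e2 k) x) +
    op k N (f3 k) (op k N (e3 k) x)) + ((cc μ : ℤ) : k) • x := by
  rw [mem_wt] at hx
  rw [Cas_apply]
  simp only [hx.1, hx.2, map_smul, cc]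
  push_cast
  module

/-! ### Injectivity -/

theorem isSl2_1 [CharZero k] : IsSl2Triple (h1 k) (e1 k) (f1 k) where
  h_ne_zero := by
    intro h
    have := congrArg (fun X : sl3 k => X.val 0 0) h
    simp [h1_val] at this
  lie_e_f := e1f1 k
  lie_h_e_nsmul := by rw [h1e1]; simp [two_smul]
  lie_h_f_nsmul := by rw [h1f1]; simp [two_smul]
theorem isSl2_2 [CharZero k] : IsSl2Triple (h2 k) (e2 k) (f2 k) where
  h_ne_zero := by
    intro h
    have := congrArg (fun X : sl3 k => X.val 1 1) h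
    simp [h2_val] at this
  lie_e_f := e2f2 k
  lie_h_e_nsmul := by rw [h2e2]; simp [two_smul]
  lie_h_f_nsmul := by rw [h2f2]; simp [two_smul]

/-- the weights -/
theorem finite_wt [CharZero k] [FiniteDimensional k N] : {μ : ℤ × ℤ | wt k N μ ≠ ⊥}.Finite := by
  have hA : {a : ℤ | (LieModule.toEnd k (sl3 k) N (h1 k)).HasEigenvalue ((a : ℤ) : k)}.Finite := by
    refine Set.Finite.preimage (f := fun a : ℤ => (a : k)) (Int.cast_injective.injOn)
      (Module.End.finite_hasEigenvalue _)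
  have hB : {a : ℤ | (LieModule.toEnd k (sl3 k) N (h2 k)).HasEigenvalue ((a : ℤ) : k)}.Finite := by
    refine Set.Finite.preimage (f := fun a : ℤ => (a : k)) (Int.cast_injective.injOn)
      (Module.End.finite_hasEigenvalue _)
  refine (hA.prod hB).subset ?_
  rintro μ hμ
  simp only [Set.mem_ofPred_eq] at hμ
  obtain ⟨x, hx, hx0⟩ := (Submodule.ne_bot_iff _).1 hμ
  simp only [wt, Submodule.mem_inf] at hx
  simp only [Set.mem_prod, Set.mem_ofPred_eq]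
  exact ⟨Module.End.hasEigenvalue_of_hasEigenvector ⟨hx.1, hx0⟩,
    Module.End.hasEigenvalue_of_hasEigenvector ⟨hx.2, hx0⟩⟩

theorem kills [CharZero k] {x : N} (h1x : op k N (h1 k) x = 0) (h2x : op k N (h2 k) x = 0)
    (e1x : op k N (e1 k) x = 0) (e2x : op k N (e2 k) x = 0)
    (f1x : op k N (f1 k) x = 0) (f2x : op k N (f2 k) x = 0) (X : sl3 k) : ⁅X, x⁆ = 0 := by
  have e3x : op k N (e3 k) x = 0 := by
    have := r_e1e2 k N x
    rw [e1x, e2x] at this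
    simpa using this.symm
  have f3x : op k N (f3 k) x = 0 := by
    have := r_f1f2 k N x
    rw [f1x, f2x] at this
    simpa using this.symm
  simp only [op, LieModule.toEnd_apply_apply] at h1x h2x e1x e2x e3x f1x f2x f3x
  rw [expand k X]
  simp only [add_lie, smul_lie, h1x, h2x, e1x, e2x, e3x, f1x, f2x, f3x, smul_zero, add_zero]

theorem Cas_inj [CharZero k] [FiniteDimensional k N]
    (hinv : ∀ x : N, (∀ X : sl3 k, ⁅X, x⁆ = 0) → x = 0) (μ : ℤ × ℤ) (x : N) (hx : x ∈ wt k N μ)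
    (hC : Cas k N x = 0) : x = 0 := by
  by_contra hx0
  set W : Set (ℤ × ℤ) := {μ | ∃ x ∈ wt k N μ, x ≠ 0 ∧ Cas k N x = 0} with hW
  have hWf : W.Finite := by
    refine (finite_wt k N).subset ?_
    rintro ν ⟨y, hy, hy0, -⟩
    simp only [Set.mem_ofPred_eq]
    exact (Submodule.ne_bot_iff _).2 ⟨y, hy, hy0⟩
  obtain ⟨ν, hν, hmax⟩ := Set.exists_max_image W (fun ν => ν.1 + ν.2) hWf ⟨μ, x, hx, hx0, hC⟩
  obtain ⟨v, hv, hv0, hvC⟩ := hν
  have e1v : op k N (e1 k) v = 0 := by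
    by_contra hne
    have := hmax (ν + (2, -1)) ⟨_, wt_e1 k N hv, hne, by rw [Cas_e1, hvC, map_zero]⟩
    simp only [Prod.fst_add, Prod.snd_add] at this
    omega
  have e2v : op k N (e2 k) v = 0 := by
    by_contra hne
    have := hmax (ν + (-1, 2)) ⟨_, wt_e2 k N hv, hne, by rw [Cas_e2, hvC, map_zero]⟩
    simp only [Prod.fst_add, Prod.snd_add] at this
    omega
  have e3v : op k N (e3 k) v = 0 := by
    have := r_e1e2 k N v
    rw [e1v, e2v] at this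
    simpa using this.symm
  have hcas := Cas_wt k N hv
  rw [hvC, e1v, e2v, e3v] at hcas
  simp only [map_zero, add_zero, smul_zero, zero_add] at hcas
  have hcc : cc ν = 0 := by
    have := (smul_eq_zero.1 hcas.symm).resolve_right hv0
    exact_mod_cast this
  have hv' := (mem_wt k N ν v).1 hv
  have P1 : (isSl2_1 k).HasPrimitiveVectorWith v ((ν.1 : ℤ) : k) := ⟨hv0, hv'.1, e1v⟩
  have P2 : (isSl2_2 k).HasPrimitiveVectorWith v ((ν.2 : ℤ) : k) := ⟨hv0, hv'.2, e2v⟩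
  obtain ⟨n1, hn1⟩ := P1.exists_nat
  obtain ⟨n2, hn2⟩ := P2.exists_nat
  have hν1 : ν.1 = n1 := by exact_mod_cast hn1
  have hν2 : ν.2 = n2 := by exact_mod_cast hn2
  have h10 : n1 = 0 ∧ n2 = 0 := by
    simp only [cc, hν1, hν2] at hcc
    have : n1 ^ 2 + n1 * n2 + n2 ^ 2 + 3 * n1 + 3 * n2 = 0 := by exact_mod_cast hcc
    constructor <;> nlinarith [Nat.zero_le (n1 ^ 2), Nat.zero_le (n1 * n2), Nat.zero_le (n2 ^ 2)]
  have hf1 := P1.pow_toEnd_f_eq_zero_of_eq_nat hn1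
  have hf2 := P2.pow_toEnd_f_eq_zero_of_eq_nat hn2
  rw [h10.1] at hf1
  rw [h10.2] at hf2
  simp only [zero_add, pow_one] at hf1 hf2
  refine hv0 (hinv v (kills k N ?_ ?_ e1v e2v hf1 hf2))
  · rw [hv'.1, hν1, h10.1]; simp
  · rw [hv'.2, hν2, h10.2]; simp

/-! ### Traces -/
section traces
variable [CharZero k] [FiniteDimensional k N]

noncomputable def E1 (μ : ℤ × ℤ) : wt k N μ →ₗ[k] wt k N (μ + (2, -1)) :=
  (op k N (e1 k)).restrict (fun _ hx => wt_e1 k N hx)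
noncomputable def E2 (μ : ℤ × ℤ) : wt k N μ →ₗ[k] wt k N (μ + (-1, 2)) :=
  (op k N (e2 k)).restrict (fun _ hx => wt_e2 k N hx)
noncomputable def E3 (μ : ℤ × ℤ) : wt k N μ →ₗ[k] wt k N (μ + (1, 1)) :=
  (op k N (e3 k)).restrict (fun _ hx => wt_e3 k N hx)
noncomputable def F1 (μ : ℤ × ℤ) : wt k N (μ + (2, -1)) →ₗ[k] wt k N μ :=
  (op k N (f1 k)).restrict (fun _ hx => wt_f1 k N hx)
noncomputable def F2 (μ : ℤ × ℤ) : wt k N (μ + (-1, 2)) →ₗ[k] wt k N μ :=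
  (op k N (f2 k)).restrict (fun _ hx => wt_f2 k N hx)
noncomputable def F3 (μ : ℤ × ℤ) : wt k N (μ + (1, 1)) →ₗ[k] wt k N μ :=
  (op k N (f3 k)).restrict (fun _ hx => wt_f3 k N hx)
noncomputable def C (μ : ℤ × ℤ) : wt k N μ →ₗ[k] wt k N μ :=
  (Cas k N).restrict (fun _ hx => wt_Cas k N hx)

/-- abstract trace swap -/
theorem swap {V W : Type} [AddCommGroup V] [Module k V] [AddCommGroup W] [Module k W]
    [FiniteDimensional k V] [FiniteDimensional k W] (E : V →ₗ[k] W) (F : W →ₗ[k] V)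
    (C : V →ₗ[k] V) (C' : W →ₗ[k] W) (S : V →ₗ[k] V) (S' : W →ₗ[k] W)
    (hS : S ∘ₗ C = LinearMap.id) (hS' : C' ∘ₗ S' = LinearMap.id)
    (hF : C ∘ₗ F = F ∘ₗ C') (G : W →ₗ[k] W) (c : k)
    (hG : E ∘ₗ F = G + c • LinearMap.id) :
    LinearMap.trace k V (S ∘ₗ F ∘ₗ E) = LinearMap.trace k W (S' ∘ₗ G) +
      c * LinearMap.trace k W S' := by
  have h1 : S ∘ₗ F = F ∘ₗ S' := by
    calc S ∘ₗ F = S ∘ₗ F ∘ₗ (C' ∘ₗ S') := by rw [hS', LinearMap.comp_id]
      _ = S ∘ₗ (F ∘ₗ C') ∘ₗ S' := by rw [LinearMap.comp_assoc]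
      _ = (S ∘ₗ C) ∘ₗ F ∘ₗ S' := by rw [← hF]; simp only [LinearMap.comp_assoc]
      _ = F ∘ₗ S' := by rw [hS, LinearMap.id_comp]
  calc LinearMap.trace k V (S ∘ₗ F ∘ₗ E) = LinearMap.trace k V (F ∘ₗ (S' ∘ₗ E)) := by
        rw [← LinearMap.comp_assoc, h1, LinearMap.comp_assoc]
    _ = LinearMap.trace k W ((S' ∘ₗ E) ∘ₗ F) := LinearMap.trace_comp_comm' _ _
    _ = LinearMap.trace k W (S' ∘ₗ G) + c * LinearMap.trace k W S' := by
        rw [LinearMap.comp_assoc, hG, LinearMap.comp_add, map_add, LinearMap.comp_smul,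
          LinearMap.comp_id, map_smul, smul_eq_mul]

variable (hinv : ∀ x : N, (∀ X : sl3 k, ⁅X, x⁆ = 0) → x = 0)

/-- the inverse of the Casimir operator -/
noncomputable def T (μ : ℤ × ℤ) : wt k N μ →ₗ[k] wt k N μ :=
  (LinearEquiv.ofInjectiveEndo (C k N μ) (by
    rw [← LinearMap.ker_eq_bot, LinearMap.ker_eq_bot']
    rintro ⟨x, hx⟩ h
    have h' : Cas k N x = 0 := congrArg Subtype.val h
    exact Subtype.ext (Cas_inj k N hinv μ x hx h'))).symm.toLinearMap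

theorem T_C (μ : ℤ × ℤ) : T k N hinv μ ∘ₗ C k N μ = LinearMap.id := by
  ext1 x
  simp only [LinearMap.comp_apply, LinearMap.id_apply, T]
  exact LinearEquiv.symm_apply_apply (LinearEquiv.ofInjectiveEndo (C k N μ) _) x
theorem C_T (μ : ℤ × ℤ) : C k N μ ∘ₗ T k N hinv μ = LinearMap.id := by
  ext1 x
  simp only [LinearMap.comp_apply, LinearMap.id_apply, T]
  exact LinearEquiv.apply_symm_apply (LinearEquiv.ofInjectiveEndo (C k N μ) _) x

noncomputable def tau (μ : ℤ × ℤ) : k := LinearMap.trace k (wt k N μ) (T k N hinv μ)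
noncomputable def t1 (μ : ℤ × ℤ) : k := LinearMap.trace k (wt k N μ) (T k N hinv μ ∘ₗ F1 k N μ ∘ₗ E1 k N μ)
noncomputable def t2 (μ : ℤ × ℤ) : k := LinearMap.trace k (wt k N μ) (T k N hinv μ ∘ₗ F2 k N μ ∘ₗ E2 k N μ)
noncomputable def t3 (μ : ℤ × ℤ) : k := LinearMap.trace k (wt k N μ) (T k N hinv μ ∘ₗ F3 k N μ ∘ₗ E3 k N μ)

theorem rel0 (μ : ℤ × ℤ) : (finrank k (wt k N μ) : k) =
    ((cc μ : ℤ) : k) * tau k N hinv μ + 3 * (t1 k N hinv μ + t2 k N hinv μ + t3 k N hinv μ) := by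
  have hC : C k N μ = (3 : k) • (F1 k N μ ∘ₗ E1 k N μ + F2 k N μ ∘ₗ E2 k N μ + F3 k N μ ∘ₗ E3 k N μ) +
      ((cc μ : ℤ) : k) • LinearMap.id := by
    ext1 ⟨x, hx⟩
    apply Subtype.ext
    exact Cas_wt k N hx
  have h := congrArg (fun A => LinearMap.trace k _ (T k N hinv μ ∘ₗ A)) hC
  simp only [T_C, LinearMap.trace_id] at h
  rw [h]
  simp only [LinearMap.comp_add, LinearMap.comp_smul, map_add, map_smul, LinearMap.comp_id, smul_eq_mul,
    tau, t1, t2, t3]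
  ring

theorem rel1 (μ : ℤ × ℤ) : t1 k N hinv μ = t1 k N hinv (μ + (2, -1)) +
    (((μ + (2, -1)).1 : ℤ) : k) * tau k N hinv (μ + (2, -1)) := by
  refine swap k _ _ (C k N μ) (C k N (μ + (2, -1))) _ _ (T_C k N hinv μ) (C_T k N hinv _) ?_ _ _ ?_
  · ext1 ⟨x, hx⟩
    exact Subtype.ext (Cas_f1 k N x)
  · ext1 ⟨x, hx⟩
    apply Subtype.ext
    change op k N (e1 k) (op k N (f1 k) x) = op k N (f1 k) (op k N (e1 k) x) + (((μ + (2, -1)).1 : ℤ) : k) • x
    rw [r_e1f1, ((mem_wt k N _ x).1 hx).1]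
theorem rel2 (μ : ℤ × ℤ) : t2 k N hinv μ = t2 k N hinv (μ + (-1, 2)) +
    (((μ + (-1, 2)).2 : ℤ) : k) * tau k N hinv (μ + (-1, 2)) := by
  refine swap k _ _ (C k N μ) (C k N (μ + (-1, 2))) _ _ (T_C k N hinv μ) (C_T k N hinv _) ?_ _ _ ?_
  · ext1 ⟨x, hx⟩
    exact Subtype.ext (Cas_f2 k N x)
  · ext1 ⟨x, hx⟩
    apply Subtype.ext
    change op k N (e2 k) (op k N (f2 k) x) = op k N (f2 k) (op k N (e2 k) x) + (((μ + (-1, 2)).2 : ℤ) : k) • x
    rw [r_e2f2, ((mem_wt k N _ x).1 hx).2]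
theorem rel3 (μ : ℤ × ℤ) : t3 k N hinv μ = t3 k N hinv (μ + (1, 1)) +
    (((μ + (1, 1)).1 + (μ + (1, 1)).2 : ℤ) : k) * tau k N hinv (μ + (1, 1)) := by
  refine swap k _ _ (C k N μ) (C k N (μ + (1, 1))) _ _ (T_C k N hinv μ) (C_T k N hinv _) ?_ _ _ ?_
  · ext1 ⟨x, hx⟩
    exact Subtype.ext (Cas_f3 k N x)
  · ext1 ⟨x, hx⟩
    apply Subtype.ext
    change op k N (e3 k) (op k N (f3 k) x) = op k N (f3 k) (op k N (e3 k) x) +
      (((μ + (1, 1)).1 + (μ + (1, 1)).2 : ℤ) : k) • x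
    rw [r_e3f3, ((mem_wt k N _ x).1 hx).1, ((mem_wt k N _ x).1 hx).2]
    push_cast
    module

include hinv in
theorem altsum_zero : altsum (fun μ => (finrank k (wt k N μ) : ℤ)) = 0 := by
  have key : ((altsum (fun μ => (finrank k (wt k N μ) : ℤ)) : ℤ) : k) = 0 := by
    simp only [altsum]
    push_cast
    rw [rel0 k N hinv (0, 0), rel0 k N hinv (2, -1), rel0 k N hinv (-1, 2), rel0 k N hinv (3, 0),
      rel0 k N hinv (0, 3), rel0 k N hinv (2, 2)]
    have a1 := rel1 k N hinv (0, 0)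
    have a2 := rel1 k N hinv (-1, 2)
    have a3 := rel1 k N hinv (1, 1)
    have a4 := rel1 k N hinv (0, 3)
    have b1 := rel2 k N hinv (0, 0)
    have b2 := rel2 k N hinv (2, -1)
    have b3 := rel2 k N hinv (1, 1)
    have b4 := rel2 k N hinv (3, 0)
    have c1 := rel3 k N hinv (0, 0)
    have c2 := rel3 k N hinv (1, 1)
    have c3 := rel3 k N hinv (2, -1)
    have c4 := rel3 k N hinv (-1, 2)
    norm_num [cc] at a1 a2 a3 a4 b1 b2 b3 b4 c1 c2 c3 c4 ⊢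
    linear_combination 3 * (a1 - a2 - a3 + a4 + b1 - b2 - b3 + b4 + c1 + c2 - c3 - c4)
  exact_mod_cast key
end traces

end

theorem r1 : S_R1 := by
  intro k _ _ N _ _ _ _ _ _ hinv
  exact altsum_zero k N hinv

end Pool.Agent.W708.ABG
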