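import Pool.Agent.W429.ABG.Stmts
set_option autoImplicit false

/-! Relations in `sl₃` and the Casimir operator. -/

namespace Pool.Agent.W708.ABG
open Module
open Pool.Agent.W429.ABG (sl3 h1 h2 wt altsum chiConv)
attribute [local instance 100] LieRing.ofAssociativeRing

section elements
variable (k : Type) [Field k]

noncomputable def e1 : sl3 k := LieAlgebra.SpecialLinear.single (0 : Fin 3) 1 (by decide) (1 : k)
noncomputable def e2 : sl3 k := LieAlgebra.SpecialLinear.single (1 : Fin 3) 2 (by decide) (1 : k)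
noncomputable def e3 : sl3 k := LieAlgebra.SpecialLinear.single (0 : Fin 3) 2 (by decide) (1 : k)
noncomputable def f1 : sl3 k := LieAlgebra.SpecialLinear.single (1 : Fin 3) 0 (by decide) (1 : k)
noncomputable def f2 : sl3 k := LieAlgebra.SpecialLinear.single (2 : Fin 3) 1 (by decide) (1 : k)
noncomputable def f3 : sl3 k := LieAlgebra.SpecialLinear.single (2 : Fin 3) 0 (by decide) (1 : k)

theorem e1_val : (e1 k).val = !![0, 1, 0; 0, 0, 0; 0, 0, 0] := by
  rw [e1, LieAlgebra.SpecialLinear.val_single]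
  ext i j; fin_cases i <;> fin_cases j <;> simp [Matrix.single]
theorem e2_val : (e2 k).val = !![0, 0, 0; 0, 0, 1; 0, 0, 0] := by
  rw [e2, LieAlgebra.SpecialLinear.val_single]
  ext i j; fin_cases i <;> fin_cases j <;> simp [Matrix.single]
theorem e3_val : (e3 k).val = !![0, 0, 1; 0, 0, 0; 0, 0, 0] := by
  rw [e3, LieAlgebra.SpecialLinear.val_single]
  ext i j; fin_cases i <;> fin_cases j <;> simp [Matrix.single]
theorem f1_val : (f1 k).val = !![0, 0, 0; 1, 0, 0; 0, 0, 0] := by
  rw [f1, LieAlgebra.SpecialLinear.val_single]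
  ext i j; fin_cases i <;> fin_cases j <;> simp [Matrix.single]
theorem f2_val : (f2 k).val = !![0, 0, 0; 0, 0, 0; 0, 1, 0] := by
  rw [f2, LieAlgebra.SpecialLinear.val_single]
  ext i j; fin_cases i <;> fin_cases j <;> simp [Matrix.single]
theorem f3_val : (f3 k).val = !![0, 0, 0; 0, 0, 0; 1, 0, 0] := by
  rw [f3, LieAlgebra.SpecialLinear.val_single]
  ext i j; fin_cases i <;> fin_cases j <;> simp [Matrix.single]
theorem h1_val : (h1 k).val = !![1, 0, 0; 0, -1, 0; 0, 0, 0] := by
  rw [h1, LieAlgebra.SpecialLinear.val_singleSubSingle]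
  ext i j; fin_cases i <;> fin_cases j <;> simp [Matrix.single]
theorem h2_val : (h2 k).val = !![0, 0, 0; 0, 1, 0; 0, 0, -1] := by
  rw [h2, LieAlgebra.SpecialLinear.val_singleSubSingle]
  ext i j; fin_cases i <;> fin_cases j <;> simp [Matrix.single]

theorem e1f1 : ⁅e1 k, f1 k⁆ = h1 k := by
  apply Subtype.ext
  simp only [LieAlgebra.SpecialLinear.sl_bracket, AddSubgroupClass.coe_sub, AddMemClass.coe_add,
    NegMemClass.coe_neg, SetLike.val_smul, ZeroMemClass.coe_zero, e1_val, e2_val, e3_val, f1_val, f2_val,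
    f3_val, h1_val, h2_val]
  ext i j; fin_cases i <;> fin_cases j <;> simp <;> norm_num
theorem e1f2 : ⁅e1 k, f2 k⁆ = 0 := by
  apply Subtype.ext
  simp only [LieAlgebra.SpecialLinear.sl_bracket, AddSubgroupClass.coe_sub, AddMemClass.coe_add,
    NegMemClass.coe_neg, SetLike.val_smul, ZeroMemClass.coe_zero, e1_val, e2_val, e3_val, f1_val, f2_val,
    f3_val, h1_val, h2_val]
  ext i j; fin_cases i <;> fin_cases j <;> simp <;> norm_num
theorem e1f3 : ⁅e1 k, f3 k⁆ = -f2 k := by
  apply Subtype.ext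
  simp only [LieAlgebra.SpecialLinear.sl_bracket, AddSubgroupClass.coe_sub, AddMemClass.coe_add,
    NegMemClass.coe_neg, SetLike.val_smul, ZeroMemClass.coe_zero, e1_val, e2_val, e3_val, f1_val, f2_val,
    f3_val, h1_val, h2_val]
  ext i j; fin_cases i <;> fin_cases j <;> simp <;> norm_num
theorem e2f1 : ⁅e2 k, f1 k⁆ = 0 := by
  apply Subtype.ext
  simp only [LieAlgebra.SpecialLinear.sl_bracket, AddSubgroupClass.coe_sub, AddMemClass.coe_add,
    NegMemClass.coe_neg, SetLike.val_smul, ZeroMemClass.coe_zero, e1_val, e2_val, e3_val, f1_val, f2_val,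
    f3_val, h1_val, h2_val]
  ext i j; fin_cases i <;> fin_cases j <;> simp <;> norm_num
theorem e2f2 : ⁅e2 k, f2 k⁆ = h2 k := by
  apply Subtype.ext
  simp only [LieAlgebra.SpecialLinear.sl_bracket, AddSubgroupClass.coe_sub, AddMemClass.coe_add,
    NegMemClass.coe_neg, SetLike.val_smul, ZeroMemClass.coe_zero, e1_val, e2_val, e3_val, f1_val, f2_val,
    f3_val, h1_val, h2_val]
  ext i j; fin_cases i <;> fin_cases j <;> simp <;> norm_num
theorem e2f3 : ⁅e2 k, f3 k⁆ = f1 k := by
  apply Subtype.ext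
  simp only [LieAlgebra.SpecialLinear.sl_bracket, AddSubgroupClass.coe_sub, AddMemClass.coe_add,
    NegMemClass.coe_neg, SetLike.val_smul, ZeroMemClass.coe_zero, e1_val, e2_val, e3_val, f1_val, f2_val,
    f3_val, h1_val, h2_val]
  ext i j; fin_cases i <;> fin_cases j <;> simp <;> norm_num
theorem e3f1 : ⁅e3 k, f1 k⁆ = -e2 k := by
  apply Subtype.ext
  simp only [LieAlgebra.SpecialLinear.sl_bracket, AddSubgroupClass.coe_sub, AddMemClass.coe_add,
    NegMemClass.coe_neg, SetLike.val_smul, ZeroMemClass.coe_zero, e1_val, e2_val, e3_val, f1_val, f2_val,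
    f3_val, h1_val, h2_val]
  ext i j; fin_cases i <;> fin_cases j <;> simp <;> norm_num
theorem e3f2 : ⁅e3 k, f2 k⁆ = e1 k := by
  apply Subtype.ext
  simp only [LieAlgebra.SpecialLinear.sl_bracket, AddSubgroupClass.coe_sub, AddMemClass.coe_add,
    NegMemClass.coe_neg, SetLike.val_smul, ZeroMemClass.coe_zero, e1_val, e2_val, e3_val, f1_val, f2_val,
    f3_val, h1_val, h2_val]
  ext i j; fin_cases i <;> fin_cases j <;> simp <;> norm_num
theorem e3f3 : ⁅e3 k, f3 k⁆ = h1 k + h2 k := by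
  apply Subtype.ext
  simp only [LieAlgebra.SpecialLinear.sl_bracket, AddSubgroupClass.coe_sub, AddMemClass.coe_add,
    NegMemClass.coe_neg, SetLike.val_smul, ZeroMemClass.coe_zero, e1_val, e2_val, e3_val, f1_val, f2_val,
    f3_val, h1_val, h2_val]
  ext i j; fin_cases i <;> fin_cases j <;> simp <;> norm_num
theorem e1e2 : ⁅e1 k, e2 k⁆ = e3 k := by
  apply Subtype.ext
  simp only [LieAlgebra.SpecialLinear.sl_bracket, AddSubgroupClass.coe_sub, AddMemClass.coe_add,
    NegMemClass.coe_neg, SetLike.val_smul, ZeroMemClass.coe_zero, e1_val, e2_val, e3_val, f1_val, f2_val,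
    f3_val, h1_val, h2_val]
  ext i j; fin_cases i <;> fin_cases j <;> simp <;> norm_num
theorem e1e3 : ⁅e1 k, e3 k⁆ = 0 := by
  apply Subtype.ext
  simp only [LieAlgebra.SpecialLinear.sl_bracket, AddSubgroupClass.coe_sub, AddMemClass.coe_add,
    NegMemClass.coe_neg, SetLike.val_smul, ZeroMemClass.coe_zero, e1_val, e2_val, e3_val, f1_val, f2_val,
    f3_val, h1_val, h2_val]
  ext i j; fin_cases i <;> fin_cases j <;> simp <;> norm_num
theorem e2e3 : ⁅e2 k, e3 k⁆ = 0 := by
  apply Subtype.ext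
  simp only [LieAlgebra.SpecialLinear.sl_bracket, AddSubgroupClass.coe_sub, AddMemClass.coe_add,
    NegMemClass.coe_neg, SetLike.val_smul, ZeroMemClass.coe_zero, e1_val, e2_val, e3_val, f1_val, f2_val,
    f3_val, h1_val, h2_val]
  ext i j; fin_cases i <;> fin_cases j <;> simp <;> norm_num
theorem f1f2 : ⁅f1 k, f2 k⁆ = -f3 k := by
  apply Subtype.ext
  simp only [LieAlgebra.SpecialLinear.sl_bracket, AddSubgroupClass.coe_sub, AddMemClass.coe_add,
    NegMemClass.coe_neg, SetLike.val_smul, ZeroMemClass.coe_zero, e1_val, e2_val, e3_val, f1_val, f2_val,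
    f3_val, h1_val, h2_val]
  ext i j; fin_cases i <;> fin_cases j <;> simp <;> norm_num
theorem f1f3 : ⁅f1 k, f3 k⁆ = 0 := by
  apply Subtype.ext
  simp only [LieAlgebra.SpecialLinear.sl_bracket, AddSubgroupClass.coe_sub, AddMemClass.coe_add,
    NegMemClass.coe_neg, SetLike.val_smul, ZeroMemClass.coe_zero, e1_val, e2_val, e3_val, f1_val, f2_val,
    f3_val, h1_val, h2_val]
  ext i j; fin_cases i <;> fin_cases j <;> simp <;> norm_num
theorem f2f3 : ⁅f2 k, f3 k⁆ = 0 := by
  apply Subtype.ext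
  simp only [LieAlgebra.SpecialLinear.sl_bracket, AddSubgroupClass.coe_sub, AddMemClass.coe_add,
    NegMemClass.coe_neg, SetLike.val_smul, ZeroMemClass.coe_zero, e1_val, e2_val, e3_val, f1_val, f2_val,
    f3_val, h1_val, h2_val]
  ext i j; fin_cases i <;> fin_cases j <;> simp <;> norm_num
theorem h1e1 : ⁅h1 k, e1 k⁆ = (2 : k) • e1 k := by
  apply Subtype.ext
  simp only [LieAlgebra.SpecialLinear.sl_bracket, AddSubgroupClass.coe_sub, AddMemClass.coe_add,
    NegMemClass.coe_neg, SetLike.val_smul, ZeroMemClass.coe_zero, e1_val, e2_val, e3_val, f1_val, f2_val,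
    f3_val, h1_val, h2_val]
  ext i j; fin_cases i <;> fin_cases j <;> simp <;> norm_num
theorem h1e2 : ⁅h1 k, e2 k⁆ = -e2 k := by
  apply Subtype.ext
  simp only [LieAlgebra.SpecialLinear.sl_bracket, AddSubgroupClass.coe_sub, AddMemClass.coe_add,
    NegMemClass.coe_neg, SetLike.val_smul, ZeroMemClass.coe_zero, e1_val, e2_val, e3_val, f1_val, f2_val,
    f3_val, h1_val, h2_val]
  ext i j; fin_cases i <;> fin_cases j <;> simp <;> norm_num
theorem h1e3 : ⁅h1 k, e3 k⁆ = e3 k := by
  apply Subtype.ext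
  simp only [LieAlgebra.SpecialLinear.sl_bracket, AddSubgroupClass.coe_sub, AddMemClass.coe_add,
    NegMemClass.coe_neg, SetLike.val_smul, ZeroMemClass.coe_zero, e1_val, e2_val, e3_val, f1_val, f2_val,
    f3_val, h1_val, h2_val]
  ext i j; fin_cases i <;> fin_cases j <;> simp <;> norm_num
theorem h1f1 : ⁅h1 k, f1 k⁆ = (-2 : k) • f1 k := by
  apply Subtype.ext
  simp only [LieAlgebra.SpecialLinear.sl_bracket, AddSubgroupClass.coe_sub, AddMemClass.coe_add,
    NegMemClass.coe_neg, SetLike.val_smul, ZeroMemClass.coe_zero, e1_val, e2_val, e3_val, f1_val, f2_val,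
    f3_val, h1_val, h2_val]
  ext i j; fin_cases i <;> fin_cases j <;> simp <;> norm_num
theorem h1f2 : ⁅h1 k, f2 k⁆ = f2 k := by
  apply Subtype.ext
  simp only [LieAlgebra.SpecialLinear.sl_bracket, AddSubgroupClass.coe_sub, AddMemClass.coe_add,
    NegMemClass.coe_neg, SetLike.val_smul, ZeroMemClass.coe_zero, e1_val, e2_val, e3_val, f1_val, f2_val,
    f3_val, h1_val, h2_val]
  ext i j; fin_cases i <;> fin_cases j <;> simp <;> norm_num
theorem h1f3 : ⁅h1 k, f3 k⁆ = -f3 k := by
  apply Subtype.ext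
  simp only [LieAlgebra.SpecialLinear.sl_bracket, AddSubgroupClass.coe_sub, AddMemClass.coe_add,
    NegMemClass.coe_neg, SetLike.val_smul, ZeroMemClass.coe_zero, e1_val, e2_val, e3_val, f1_val, f2_val,
    f3_val, h1_val, h2_val]
  ext i j; fin_cases i <;> fin_cases j <;> simp <;> norm_num
theorem h2e1 : ⁅h2 k, e1 k⁆ = -e1 k := by
  apply Subtype.ext
  simp only [LieAlgebra.SpecialLinear.sl_bracket, AddSubgroupClass.coe_sub, AddMemClass.coe_add,
    NegMemClass.coe_neg, SetLike.val_smul, ZeroMemClass.coe_zero, e1_val, e2_val, e3_val, f1_val, f2_val,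
    f3_val, h1_val, h2_val]
  ext i j; fin_cases i <;> fin_cases j <;> simp <;> norm_num
theorem h2e2 : ⁅h2 k, e2 k⁆ = (2 : k) • e2 k := by
  apply Subtype.ext
  simp only [LieAlgebra.SpecialLinear.sl_bracket, AddSubgroupClass.coe_sub, AddMemClass.coe_add,
    NegMemClass.coe_neg, SetLike.val_smul, ZeroMemClass.coe_zero, e1_val, e2_val, e3_val, f1_val, f2_val,
    f3_val, h1_val, h2_val]
  ext i j; fin_cases i <;> fin_cases j <;> simp <;> norm_num
theorem h2e3 : ⁅h2 k, e3 k⁆ = e3 k := by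
  apply Subtype.ext
  simp only [LieAlgebra.SpecialLinear.sl_bracket, AddSubgroupClass.coe_sub, AddMemClass.coe_add,
    NegMemClass.coe_neg, SetLike.val_smul, ZeroMemClass.coe_zero, e1_val, e2_val, e3_val, f1_val, f2_val,
    f3_val, h1_val, h2_val]
  ext i j; fin_cases i <;> fin_cases j <;> simp <;> norm_num
theorem h2f1 : ⁅h2 k, f1 k⁆ = f1 k := by
  apply Subtype.ext
  simp only [LieAlgebra.SpecialLinear.sl_bracket, AddSubgroupClass.coe_sub, AddMemClass.coe_add,
    NegMemClass.coe_neg, SetLike.val_smul, ZeroMemClass.coe_zero, e1_val, e2_val, e3_val, f1_val, f2_val,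
    f3_val, h1_val, h2_val]
  ext i j; fin_cases i <;> fin_cases j <;> simp <;> norm_num
theorem h2f2 : ⁅h2 k, f2 k⁆ = (-2 : k) • f2 k := by
  apply Subtype.ext
  simp only [LieAlgebra.SpecialLinear.sl_bracket, AddSubgroupClass.coe_sub, AddMemClass.coe_add,
    NegMemClass.coe_neg, SetLike.val_smul, ZeroMemClass.coe_zero, e1_val, e2_val, e3_val, f1_val, f2_val,
    f3_val, h1_val, h2_val]
  ext i j; fin_cases i <;> fin_cases j <;> simp <;> norm_num
theorem h2f3 : ⁅h2 k, f3 k⁆ = -f3 k := by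
  apply Subtype.ext
  simp only [LieAlgebra.SpecialLinear.sl_bracket, AddSubgroupClass.coe_sub, AddMemClass.coe_add,
    NegMemClass.coe_neg, SetLike.val_smul, ZeroMemClass.coe_zero, e1_val, e2_val, e3_val, f1_val, f2_val,
    f3_val, h1_val, h2_val]
  ext i j; fin_cases i <;> fin_cases j <;> simp <;> norm_num
theorem h1h2 : ⁅h1 k, h2 k⁆ = 0 := by
  apply Subtype.ext
  simp only [LieAlgebra.SpecialLinear.sl_bracket, AddSubgroupClass.coe_sub, AddMemClass.coe_add,
    NegMemClass.coe_neg, SetLike.val_smul, ZeroMemClass.coe_zero, e1_val, e2_val, e3_val, f1_val, f2_val,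
    f3_val, h1_val, h2_val]
  ext i j; fin_cases i <;> fin_cases j <;> simp <;> norm_num

/-- expansion of an element of `sl₃` -/
theorem expand (X : sl3 k) : X = X.val 0 1 • e1 k + X.val 1 2 • e2 k + X.val 0 2 • e3 k +
    X.val 1 0 • f1 k + X.val 2 1 • f2 k + X.val 2 0 • f3 k + X.val 0 0 • h1 k +
    (X.val 0 0 + X.val 1 1) • h2 k := by
  have hX : X.val 0 0 + X.val 1 1 + X.val 2 2 = 0 := by
    have h2 : Matrix.trace X.val = 0 := LinearMap.mem_ker.mp X.2
    simpa [Matrix.trace, Fin.sum_univ_three] using h2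
  have h22 : X.val 2 2 = -(X.val 0 0 + X.val 1 1) := by linear_combination hX
  apply Subtype.ext
  simp only [AddMemClass.coe_add, SetLike.val_smul, e1_val, e2_val, e3_val, f1_val, f2_val,
    f3_val, h1_val, h2_val]
  ext i j; fin_cases i <;> fin_cases j <;> simp [h22]

end elements
end Pool.Agent.W708.ABG
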